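import Pool.Agent.K1H89.OR.Defs

/-! Arbitrary and monotone permutations. -/

set_option autoImplicit false

namespace Pool.Agent.K1H89.OR

theorem cheap_any {s : ℕ} (π : Equiv.Perm (Fin s)) : Cheap π (4 * s) (2 * s) := by
  intro N hN B hB
  by_contra hno
  have h : ∀ x y, x < N - s → y < N - s → ∃ i : Fin s, (x + i, y + π i) ∈ B := by
    intro x y hx hy
    by_contra h1
    apply hno
    refine ⟨fun i => x + i, fun i => y + i, fun i j hij => ?_, fun i j hij => ?_, fun i => ?_,
      fun i => ?_, fun i hi => h1 ⟨i, hi⟩⟩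
    · show x + (i : ℕ) < x + j
      have : (i : ℕ) < j := hij
      omega
    · show y + (i : ℕ) < y + j
      have : (i : ℕ) < j := hij
      omega
    · show x + (i : ℕ) < N
      have := i.2
      omega
    · show y + (i : ℕ) < N
      have := i.2
      omega
  have h2 : (Finset.range (N - s) ×ˢ Finset.range (N - s)) ⊆
      (Finset.univ : Finset (Fin s)).biUnion (fun i =>
        (Finset.range (N - s) ×ˢ Finset.range (N - s)).filter
          (fun z => (z.1 + (i : ℕ), z.2 + (π i : ℕ)) ∈ B)) := by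
    intro z hz
    rw [Finset.mem_product, Finset.mem_range, Finset.mem_range] at hz
    obtain ⟨i, hi⟩ := h z.1 z.2 hz.1 hz.2
    rw [Finset.mem_biUnion]
    refine ⟨i, Finset.mem_univ i, ?_⟩
    rw [Finset.mem_filter, Finset.mem_product, Finset.mem_range, Finset.mem_range]
    exact ⟨hz, hi⟩
  have h3 := (Finset.card_le_card h2).trans Finset.card_biUnion_le
  have h4 : ∀ i : Fin s, ((Finset.range (N - s) ×ˢ Finset.range (N - s)).filter
          (fun z => (z.1 + (i : ℕ), z.2 + (π i : ℕ)) ∈ B)).card ≤ B.card := by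
    intro i
    refine Finset.card_le_card_of_injOn (fun z => (z.1 + (i : ℕ), z.2 + (π i : ℕ))) ?_ ?_
    · intro z hz
      exact (Finset.mem_filter.1 hz).2
    · intro z _ w _ hzw
      simp only [Prod.mk.injEq] at hzw
      ext <;> omega
  have h5 := Finset.sum_le_sum fun i (_ : i ∈ (Finset.univ : Finset (Fin s))) => h4 i
  have h6 := h3.trans h5
  rw [Finset.card_product, Finset.card_range, Finset.sum_const, Finset.card_univ,
    Fintype.card_fin, smul_eq_mul] at h6
  have h7 : N ≤ 2 * (N - s) := by omega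
  have h8 : N * N ≤ (2 * (N - s)) * (2 * (N - s)) := Nat.mul_le_mul h7 h7
  nlinarith

theorem fiber (N k : ℕ) (hN : 4 * k ≤ N) (B : Finset (ℕ × ℕ)) (hB : B.card * 2 < N * N)
    (hk : 0 < k) (g : ℕ × ℕ → ℕ) (hg : ∀ x y, x < N → y < N → g (x, y) < 2 * N + 1) :
    ∃ d, k ≤ (((Finset.range N ×ˢ Finset.range N) \ B).filter fun z => g z = d).card := by
  have h1 : ∀ z ∈ (Finset.range N ×ˢ Finset.range N) \ B, g z ∈ Finset.range (2 * N + 1) := by
    intro z hz
    rw [Finset.mem_sdiff, Finset.mem_product, Finset.mem_range, Finset.mem_range] at hz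
    exact Finset.mem_range.2 (hg z.1 z.2 hz.1.1 hz.1.2)
  have h2 : (Finset.range (2 * N + 1)).card * (k - 1) <
      ((Finset.range N ×ˢ Finset.range N) \ B).card := by
    have h3 := Finset.le_card_sdiff B (Finset.range N ×ˢ Finset.range N)
    rw [Finset.card_product, Finset.card_range] at h3
    rw [Finset.card_range]
    obtain ⟨l, rfl⟩ : ∃ l, k = l + 1 := ⟨k - 1, by omega⟩
    rw [Nat.add_sub_cancel]
    refine lt_of_lt_of_le ?_ h3
    have h4 : (2 * N + 1) * l + B.card < N * N := by nlinarith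
    omega
  obtain ⟨d, _, hd⟩ := Finset.exists_lt_card_fiber_of_mul_lt_card_of_maps_to h1 h2
  exact ⟨d, by omega⟩

theorem cheap_inc (k : ℕ) : Cheap (Equiv.refl (Fin k)) 2 (4 * k) := by
  intro N hN B hB
  rcases Nat.eq_zero_or_pos k with rfl | hk
  · exact ⟨fun i => i.elim0, fun i => i.elim0, fun i => i.elim0, fun i => i.elim0,
      fun i => i.elim0, fun i => i.elim0, fun i => i.elim0⟩
  obtain ⟨d, hd⟩ := fiber N k hN B hB hk (fun z => z.1 + N - z.2) (fun x y hx hy => by
    show x + N - y < 2 * N + 1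
    omega)
  obtain ⟨F, hF⟩ : ∃ F, F = (((Finset.range N ×ˢ Finset.range N) \ B).filter
    fun z => z.1 + N - z.2 = d) := ⟨_, rfl⟩
  rw [← hF] at hd
  have hm : ∀ z ∈ F, z.1 < N ∧ z.2 < N ∧ z ∉ B ∧ z.1 + N - z.2 = d := by
    intro z hz
    rw [hF, Finset.mem_filter, Finset.mem_sdiff, Finset.mem_product, Finset.mem_range,
      Finset.mem_range] at hz
    exact ⟨hz.1.1.1, hz.1.1.2, hz.1.2, hz.2⟩
  have hc : (F.image Prod.fst).card = F.card := by
    refine Finset.card_image_of_injOn fun z hz w hw hzw => ?_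
    have h1 := hm z hz
    have h2 := hm w hw
    ext
    · exact hzw
    · omega
  rw [← hc] at hd
  obtain ⟨f, hf⟩ : ∃ f : Fin k ↪o ℕ, f = (F.image Prod.fst).orderEmbOfCardLe hd := ⟨_, rfl⟩
  have hfm : ∀ i, ∃ z ∈ F, z.1 = f i := by
    intro i
    have h1 := (F.image Prod.fst).orderEmbOfCardLe_mem hd i
    rw [← hf] at h1
    exact Finset.mem_image.1 h1
  have hfd : ∀ i, f i < N ∧ f i + N - d < N ∧ (f i, f i + N - d) ∉ B ∧ d ≤ f i + N := by
    intro i
    obtain ⟨z, hz, hzi⟩ := hfm i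
    obtain ⟨h1, h2, h3, h4⟩ := hm z hz
    have h5 : z = (f i, f i + N - d) := by
      ext
      · exact hzi
      · show z.2 = f i + N - d
        omega
    rw [h5] at h3
    refine ⟨by omega, by omega, h3, by omega⟩
  refine ⟨fun i => f i, fun i => f i + N - d, fun i j hij => f.strictMono hij,
    fun i j hij => ?_, fun i => (hfd i).1, fun i => (hfd i).2.1, fun i => (hfd i).2.2.1⟩
  have h1 : f i < f j := f.strictMono hij
  have h2 := (hfd i).2.2.2
  have h3 := (hfd j).2.2.2
  show f i + N - d < f j + N - d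
  omega

theorem cheap_dec (k : ℕ) : Cheap (Fin.revPerm : Equiv.Perm (Fin k)) 2 (4 * k) := by
  intro N hN B hB
  rcases Nat.eq_zero_or_pos k with rfl | hk
  · exact ⟨fun i => i.elim0, fun i => i.elim0, fun i => i.elim0, fun i => i.elim0,
      fun i => i.elim0, fun i => i.elim0, fun i => i.elim0⟩
  obtain ⟨d, hd⟩ := fiber N k hN B hB hk (fun z => z.1 + z.2) (fun x y hx hy => by
    show x + y < 2 * N + 1
    omega)
  obtain ⟨F, hF⟩ : ∃ F, F = (((Finset.range N ×ˢ Finset.range N) \ B).filter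
    fun z => z.1 + z.2 = d) := ⟨_, rfl⟩
  rw [← hF] at hd
  have hm : ∀ z ∈ F, z.1 < N ∧ z.2 < N ∧ z ∉ B ∧ z.1 + z.2 = d := by
    intro z hz
    rw [hF, Finset.mem_filter, Finset.mem_sdiff, Finset.mem_product, Finset.mem_range,
      Finset.mem_range] at hz
    exact ⟨hz.1.1.1, hz.1.1.2, hz.1.2, hz.2⟩
  have hc : (F.image Prod.fst).card = F.card := by
    refine Finset.card_image_of_injOn fun z hz w hw hzw => ?_
    have h1 := hm z hz
    have h2 := hm w hw
    ext
    · exact hzw
    · omega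
  rw [← hc] at hd
  obtain ⟨f, hf⟩ : ∃ f : Fin k ↪o ℕ, f = (F.image Prod.fst).orderEmbOfCardLe hd := ⟨_, rfl⟩
  have hfm : ∀ i, ∃ z ∈ F, z.1 = f i := by
    intro i
    have h1 := (F.image Prod.fst).orderEmbOfCardLe_mem hd i
    rw [← hf] at h1
    exact Finset.mem_image.1 h1
  have hfd : ∀ i, f i < N ∧ d - f i < N ∧ (f i, d - f i) ∉ B ∧ f i ≤ d := by
    intro i
    obtain ⟨z, hz, hzi⟩ := hfm i
    obtain ⟨h1, h2, h3, h4⟩ := hm z hz
    have h5 : z = (f i, d - f i) := by
      ext
      · exact hzi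
      · show z.2 = d - f i
        omega
    rw [h5] at h3
    refine ⟨by omega, by omega, h3, by omega⟩
  refine ⟨fun i => f i, fun i => d - f (Fin.rev i), fun i j hij => f.strictMono hij,
    fun i j hij => ?_, fun i => (hfd i).1, fun i => (hfd _).2.1, fun i => ?_⟩
  · have h1 : f (Fin.rev j) < f (Fin.rev i) := f.strictMono (Fin.rev_lt_rev.2 hij)
    have h2 := (hfd (Fin.rev i)).2.2.2
    show d - f (Fin.rev i) < d - f (Fin.rev j)
    omega
  · show (f i, d - f (Fin.rev (Fin.revPerm i))) ∉ B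
    rw [Fin.revPerm_apply, Fin.rev_rev]
    exact (hfd i).2.2.1

end Pool.Agent.K1H89.OR
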