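import Pool.Agent.Q294.OM.Defs

/-! Ordered Ramsey numbers of inflated two-interval matchings: definitions. -/

set_option autoImplicit false

namespace Pool.Agent.K1H89.OR

/-- The inflation `τ[σ_0, ..., σ_{k-1}]`: it maps `s p + i` to `s (τ p) + σ_p i`
(`p < k`, `i < s`). -/
def inflate {k s : ℕ} (τ : Equiv.Perm (Fin k)) (σ : Fin k → Equiv.Perm (Fin s)) :
    Equiv.Perm (Fin (k * s)) :=
  (finProdFinEquiv.symm.trans (Equiv.prodShear τ σ)).trans finProdFinEquiv

/-- `Built r a l m π`: the permutation `π` of size `m` is built, in ambient size `l`, by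
inflations and passing to contained permutations from at most `r` permutations, each of them
increasing, decreasing or arbitrary, and `a` is the product of the sizes of the arbitrary ones
(along the levels). -/
inductive Built : ℕ → ℕ → ℕ → (m : ℕ) → Equiv.Perm (Fin m) → Prop
  | any (s : ℕ) (π : Equiv.Perm (Fin s)) : Built 1 s s s π
  | inc (k : ℕ) : Built 1 1 k k (Equiv.refl (Fin k))
  | dec (k : ℕ) : Built 1 1 k k Fin.revPerm
  | infl (r r' a a' l l' k s : ℕ) (τ : Equiv.Perm (Fin k)) (σ : Fin k → Equiv.Perm (Fin s)) :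
      Built r a l k τ → (∀ p, Built r' a' l' s (σ p)) →
      Built (r + r') (a * a') (l * l') (k * s) (inflate τ σ)
  | sub (r a l m m' : ℕ) (π : Equiv.Perm (Fin m)) (π' : Equiv.Perm (Fin m'))
      (u v : Fin m → Fin m') : Built r a l m' π' → StrictMono u → StrictMono v →
      (∀ i, π' (u i) = v (π i)) → Built r a l m π

/-- Copies of `π` in the `N × N` grid avoiding `B`. -/
def Cont {m : ℕ} (π : Equiv.Perm (Fin m)) (N : ℕ) (B : Finset (ℕ × ℕ)) : Prop :=
  ∃ r c : Fin m → ℕ, StrictMono r ∧ StrictMono c ∧ (∀ i, r i < N) ∧ (∀ i, c i < N) ∧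
    ∀ i, (r i, c (π i)) ∉ B

/-- Few cells do not meet all copies. -/
def Cheap {m : ℕ} (π : Equiv.Perm (Fin m)) (D L : ℕ) : Prop :=
  ∀ N, L ≤ N → ∀ B : Finset (ℕ × ℕ), B.card * D < N * N → Cont π N B

end Pool.Agent.K1H89.OR
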