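import Pool.Agent.K1H89.OR.Base

/-! Inflations. -/

set_option autoImplicit false

namespace Pool.Agent.K1H89.OR

theorem strict_aux {k s : ℕ} (L : ℕ) (R : Fin k → ℕ) (S : Fin k → Fin s → ℕ) (hR : StrictMono R)
    (hS : ∀ p, StrictMono (S p)) (hSL : ∀ p i, S p i < L) :
    StrictMono (fun t : Fin (k * s) => L * R (finProdFinEquiv.symm t).1 +
      S (finProdFinEquiv.symm t).1 (finProdFinEquiv.symm t).2) := by
  intro t t' htt
  obtain ⟨⟨p, i⟩, rfl⟩ := finProdFinEquiv.surjective t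
  obtain ⟨⟨p', i'⟩, rfl⟩ := finProdFinEquiv.surjective t'
  have h1 : (i : ℕ) + s * p < i' + s * p' := htt
  simp only [Equiv.symm_apply_apply]
  rcases lt_trichotomy p p' with h | h | h
  · have h2 := hR h
    have h3 := hSL p i
    have h4 : L * (R p + 1) ≤ L * R p' := Nat.mul_le_mul_left L h2
    rw [Nat.mul_add, Nat.mul_one] at h4
    omega
  · subst h
    have h2 : (i : ℕ) < i' := by omega
    have h3 := hS p (show i < i' from h2)
    omega
  · exfalso
    have h2 : (p' : ℕ) + 1 ≤ p := h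
    have h3 : s * (p' + 1) ≤ s * p := Nat.mul_le_mul_left s h2
    rw [Nat.mul_add, Nat.mul_one] at h3
    have := i'.2
    omega

theorem cheap_infl {k s : ℕ} (hk : 0 < k) (τ : Equiv.Perm (Fin k)) (σ : Fin k → Equiv.Perm (Fin s))
    (D₁ D₂ L₁ L₂ : ℕ) (hL₁ : 0 < L₁) (hL₂ : 0 < L₂) (h₁ : Cheap τ D₁ L₁)
    (h₂ : ∀ p, Cheap (σ p) D₂ L₂) : Cheap (inflate τ σ) (4 * D₁ * D₂) (L₁ * L₂) := by
  intro N hN B hB
  obtain ⟨N₁, hN₁⟩ : ∃ N₁, N₁ = N / L₂ := ⟨_, rfl⟩
  have hN₁L : L₁ ≤ N₁ := by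
    rw [hN₁]
    exact (Nat.le_div_iff_mul_le hL₂).2 hN
  have hN₁N : N₁ * L₂ ≤ N := by rw [hN₁]; exact Nat.div_mul_le_self N L₂
  have hNN : N ≤ 2 * (N₁ * L₂) := by
    have h1 : N < (N₁ + 1) * L₂ := by
      rw [hN₁]
      have := Nat.lt_div_mul_add (a := N) hL₂
      rw [Nat.add_mul, Nat.one_mul]
      exact this
    have h2 : N₁ + 1 ≤ 2 * N₁ := by omega
    have h3 : (N₁ + 1) * L₂ ≤ 2 * N₁ * L₂ := Nat.mul_le_mul_right L₂ h2
    rw [Nat.mul_assoc] at h3
    omega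
  -- the cells
  obtain ⟨q, hq⟩ : ∃ q : ℕ × ℕ → ℕ × ℕ, q = fun z => (z.1 / L₂, z.2 / L₂) := ⟨_, rfl⟩
  obtain ⟨B₁, hB₁⟩ : ∃ B₁ : Finset (ℕ × ℕ), B₁ = (B.image q).filter
      (fun w => L₂ * L₂ ≤ (B.filter (fun z => q z = w)).card * D₂) := ⟨_, rfl⟩
  have hcard : B₁.card * (L₂ * L₂) ≤ B.card * D₂ := by
    have h1 : B₁.card * (L₂ * L₂) ≤ ∑ w ∈ B₁, (B.filter (fun z => q z = w)).card * D₂ := by
      rw [← smul_eq_mul, ← Finset.sum_const]
      refine Finset.sum_le_sum fun w hw => ?_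
      rw [hB₁] at hw
      exact (Finset.mem_filter.1 hw).2
    have h2 : ∑ w ∈ B₁, (B.filter (fun z => q z = w)).card ≤ B.card := by
      rw [← Finset.card_biUnion]
      · refine Finset.card_le_card fun z hz => ?_
        obtain ⟨w, _, hw⟩ := Finset.mem_biUnion.1 hz
        exact (Finset.mem_filter.1 hw).1
      · intro w _ w' _ hww
        rw [Function.onFun, Finset.disjoint_left]
        intro z hz hz'
        exact hww ((Finset.mem_filter.1 hz).2.symm.trans (Finset.mem_filter.1 hz').2)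
    rw [← Finset.sum_mul] at h1
    exact h1.trans (Nat.mul_le_mul_right D₂ h2)
  have hB₁lt : B₁.card * D₁ < N₁ * N₁ := by
    have h1 : N * N ≤ (2 * (N₁ * L₂)) * (2 * (N₁ * L₂)) := Nat.mul_le_mul hNN hNN
    have h2 : (B₁.card * (L₂ * L₂)) * D₁ ≤ (B.card * D₂) * D₁ := Nat.mul_le_mul_right D₁ hcard
    have h3 : (B₁.card * D₁) * (L₂ * L₂) < (N₁ * N₁) * (L₂ * L₂) := by nlinarith
    exact Nat.lt_of_mul_lt_mul_right h3
  obtain ⟨R, C, hR, hC, hRN, hCN, hRC⟩ := h₁ N₁ hN₁L B₁ hB₁lt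
  -- inside the cells
  have hin : ∀ p : Fin k, ∃ r c : Fin s → ℕ, StrictMono r ∧ StrictMono c ∧ (∀ i, r i < L₂) ∧
      (∀ i, c i < L₂) ∧ ∀ i, (L₂ * R p + r i, L₂ * C (τ p) + c (σ p i)) ∉ B := by
    intro p
    obtain ⟨Bp, hBp⟩ : ∃ Bp : Finset (ℕ × ℕ), Bp = (B.filter (fun z => q z = (R p, C (τ p)))).image
      (fun z => (z.1 % L₂, z.2 % L₂)) := ⟨_, rfl⟩
    have h1 : Bp.card * D₂ < L₂ * L₂ := by
      by_contra hcon
      rw [not_lt] at hcon
      apply hRC p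
      have h2 : L₂ * L₂ ≤ (B.filter (fun z => q z = (R p, C (τ p)))).card * D₂ := by
        refine hcon.trans (Nat.mul_le_mul_right D₂ ?_)
        rw [hBp]
        exact Finset.card_image_le
      rw [hB₁, Finset.mem_filter]
      refine ⟨?_, h2⟩
      have h3 : 0 < (B.filter (fun z => q z = (R p, C (τ p)))).card := by
        rcases Nat.eq_zero_or_pos (B.filter (fun z => q z = (R p, C (τ p)))).card with h | h
        · exfalso
          rw [h, Nat.zero_mul] at h2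
          have := Nat.mul_pos hL₂ hL₂
          omega
        · exact h
      obtain ⟨z, hz⟩ := Finset.card_pos.1 h3
      rw [Finset.mem_filter] at hz
      exact Finset.mem_image.2 ⟨z, hz.1, hz.2⟩
    obtain ⟨r, c, hr, hc, hrL, hcL, hrc⟩ := h₂ p L₂ le_rfl Bp h1
    refine ⟨r, c, hr, hc, hrL, hcL, fun i hi => hrc i ?_⟩
    rw [hBp, Finset.mem_image]
    refine ⟨_, Finset.mem_filter.2 ⟨hi, ?_⟩, ?_⟩
    · rw [hq]
      show ((L₂ * R p + r i) / L₂, (L₂ * C (τ p) + c (σ p i)) / L₂) = (R p, C (τ p))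
      rw [Nat.mul_add_div hL₂, Nat.mul_add_div hL₂, Nat.div_eq_of_lt (hrL i),
        Nat.div_eq_of_lt (hcL _), Nat.add_zero, Nat.add_zero]
    · show ((L₂ * R p + r i) % L₂, (L₂ * C (τ p) + c (σ p i)) % L₂) = (r i, c (σ p i))
      rw [Nat.mul_add_mod, Nat.mul_add_mod, Nat.mod_eq_of_lt (hrL i), Nat.mod_eq_of_lt (hcL _)]
  choose r c hr hc hrL hcL hrc using hin
  have hbd : ∀ (u v : ℕ), u < N₁ → v < L₂ → L₂ * u + v < N := by
    intro u v hu hv
    have h1 : L₂ * (u + 1) ≤ L₂ * N₁ := Nat.mul_le_mul_left L₂ hu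
    rw [Nat.mul_add, Nat.mul_one, Nat.mul_comm L₂ N₁] at h1
    omega
  refine ⟨_, _, strict_aux L₂ R r hR hr hrL,
    strict_aux L₂ C (fun p => c (τ.symm p)) hC (fun p => hc _) (fun p i => hcL _ i),
    fun t => hbd _ _ (hRN _) (hrL _ _), fun t => hbd _ _ (hCN _) (hcL _ _), fun t => ?_⟩
  obtain ⟨⟨p, i⟩, rfl⟩ := finProdFinEquiv.surjective t
  have h1 : inflate τ σ (finProdFinEquiv (p, i)) = finProdFinEquiv (τ p, σ p i) := by
    simp [inflate]
  rw [h1]
  simp only [Equiv.symm_apply_apply]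
  exact hrc p i

theorem Built.pos {r a l m : ℕ} {π : Equiv.Perm (Fin m)} (h : Built r a l m π) :
    0 < m → 0 < a := by
  induction h with
  | any s π => exact id
  | inc k => intro _; exact Nat.one_pos
  | dec k => intro _; exact Nat.one_pos
  | infl r r' a a' l l' k s τ σ _ _ ih ih' =>
    intro hks
    have hk : 0 < k := by
      rcases Nat.eq_zero_or_pos k with h0 | h0
      · rw [h0, Nat.zero_mul] at hks; exact absurd hks (lt_irrefl 0)
      · exact h0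
    have hs : 0 < s := by
      rcases Nat.eq_zero_or_pos s with h0 | h0
      · rw [h0, Nat.mul_zero] at hks; exact absurd hks (lt_irrefl 0)
      · exact h0
    exact Nat.mul_pos (ih hk) (ih' ⟨0, hk⟩ hs)
  | sub r a l m m' π π' u v _ hu _ _ ih =>
    intro hm
    exact ih (lt_of_le_of_lt (Nat.zero_le _) (u ⟨0, hm⟩).2)

theorem Built.le {r a l m : ℕ} {π : Equiv.Perm (Fin m)} (h : Built r a l m π) : m ≤ l := by
  induction h with
  | any s π => exact le_rfl
  | inc k => exact le_rfl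
  | dec k => exact le_rfl
  | infl r r' a a' l l' k s τ σ _ _ ih ih' =>
    rcases Nat.eq_zero_or_pos k with h0 | h0
    · rw [h0, Nat.zero_mul]; exact Nat.zero_le _
    · exact Nat.mul_le_mul ih (ih' ⟨0, h0⟩)
  | sub r a l m m' π π' u v _ hu _ _ ih =>
    have h1 := Fintype.card_le_of_injective u hu.injective
    rw [Fintype.card_fin, Fintype.card_fin] at h1
    exact h1.trans ih

theorem Cheap.mono {m : ℕ} {π : Equiv.Perm (Fin m)} {D L D' L' : ℕ} (h : Cheap π D L)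
    (hD : D ≤ D') (hL : L ≤ L') : Cheap π D' L' := fun N hN B hB =>
  h N (hL.trans hN) B (lt_of_le_of_lt (Nat.mul_le_mul_left _ hD) hB)

theorem Built.cheap {r a l m : ℕ} {π : Equiv.Perm (Fin m)} (h : Built r a l m π) : 0 < m →
    ∃ D, 4 * D ≤ 16 ^ r * a ∧ Cheap π D (4 ^ r * l) := by
  induction h with
  | any s π =>
    intro _
    exact ⟨4 * s, by omega, (cheap_any π).mono le_rfl (by omega)⟩
  | inc k =>
    intro _
    exact ⟨2, by omega, (cheap_inc k).mono le_rfl (by omega)⟩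
  | dec k =>
    intro _
    exact ⟨2, by omega, (cheap_dec k).mono le_rfl (by omega)⟩
  | infl r r' a a' l l' k s τ σ hb hb' ih ih' =>
    intro hks
    have hk : 0 < k := by
      rcases Nat.eq_zero_or_pos k with h0 | h0
      · rw [h0, Nat.zero_mul] at hks; exact absurd hks (lt_irrefl 0)
      · exact h0
    have hs : 0 < s := by
      rcases Nat.eq_zero_or_pos s with h0 | h0
      · rw [h0, Nat.mul_zero] at hks; exact absurd hks (lt_irrefl 0)
      · exact h0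
    have hl : 0 < l := lt_of_lt_of_le hk hb.le
    have hl' : 0 < l' := lt_of_lt_of_le hs (hb' ⟨0, hk⟩).le
    obtain ⟨D₁, hD₁, h1⟩ := ih hk
    obtain ⟨D₂, hD₂⟩ : ∃ D₂, D₂ = 16 ^ r' * a' / 4 := ⟨_, rfl⟩
    have h2 : ∀ p, Cheap (σ p) D₂ (4 ^ r' * l') := by
      intro p
      obtain ⟨D, hD, h⟩ := ih' p hs
      exact h.mono (by rw [hD₂]; omega) le_rfl
    refine ⟨4 * D₁ * D₂, ?_, ?_⟩
    · have h3 : 4 * D₂ ≤ 16 ^ r' * a' := by rw [hD₂]; omega
      calc 4 * (4 * D₁ * D₂) = (4 * D₁) * (4 * D₂) := by ring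
        _ ≤ (16 ^ r * a) * (16 ^ r' * a') := Nat.mul_le_mul hD₁ h3
        _ = 16 ^ (r + r') * (a * a') := by rw [pow_add]; ring
    · have h3 := cheap_infl hk τ σ D₁ D₂ (4 ^ r * l) (4 ^ r' * l')
        (Nat.mul_pos (by positivity) hl) (Nat.mul_pos (by positivity) hl') h1 h2
      have h4 : 4 ^ r * l * (4 ^ r' * l') = 4 ^ (r + r') * (l * l') := by rw [pow_add]; ring
      rw [h4] at h3
      exact h3
  | sub r a l m m' π π' u v _ hu hv huv ih =>
    intro hm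
    obtain ⟨D, hD, h⟩ := ih (lt_of_le_of_lt (Nat.zero_le _) (u ⟨0, hm⟩).2)
    refine ⟨D, hD, fun N hN B hB => ?_⟩
    obtain ⟨ρ, c, hρ, hc, hρN, hcN, hρc⟩ := h N hN B hB
    refine ⟨fun i => ρ (u i), fun i => c (v i), hρ.comp hu, hc.comp hv, fun i => hρN _,
      fun i => hcN _, fun i => ?_⟩
    show (ρ (u i), c (v (π i))) ∉ B
    rw [← huv i]
    exact hρc (u i)

end Pool.Agent.K1H89.OR
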