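import Pool.Agent.K1H89.OR.Infl

/-! Ordered Ramsey numbers of inflated two-interval matchings. -/

set_option autoImplicit false

namespace Pool.Agent.K1H89.OR

open Pool.Agent.Q294.OM Classical

/-- `M` is contained in the matching which joins `i < m` to `m + π i`. -/
def MatchingOf {m : ℕ} (π : Equiv.Perm (Fin m)) (M : SimpleGraph (Fin (2 * m))) : Prop :=
  ∀ x y, M.Adj x y → (x : ℕ) < y → ∃ i : Fin m, (x : ℕ) = i ∧ (y : ℕ) = m + π i

theorem main_aux {r a l m : ℕ} {π : Equiv.Perm (Fin m)} (h : Built r a l m π) (hm : 0 < m)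
    (M : SimpleGraph (Fin (2 * m))) (hM : MatchingOf π M) (N' T : ℕ) (hN' : N' = 16 ^ r * a * l)
    (hT : T = 2 * N') (R : SimpleGraph (Fin T)) :
    OrdContains R M ∨ OrdContains Rᶜ (⊤ : SimpleGraph (Fin 3)) := by
  obtain ⟨Bl, hBl⟩ : ∃ Bl : Fin T → Finset (Fin T),
    Bl = fun v => Finset.univ.filter (fun w => v ≠ w ∧ ¬ R.Adj v w) := ⟨_, rfl⟩
  have hBlm : ∀ v w, w ∈ Bl v ↔ v ≠ w ∧ ¬ R.Adj v w := by
    intro v w
    rw [hBl]
    simp
  by_cases hdeg : ∃ v, 2 * m ≤ (Bl v).card
  · obtain ⟨v, hv⟩ := hdeg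
    by_cases hcl : ∀ x ∈ Bl v, ∀ y ∈ Bl v, x ≠ y → R.Adj x y
    · left
      refine ⟨(Bl v).orderEmbOfCardLe hv, ((Bl v).orderEmbOfCardLe hv).strictMono,
        fun x y hxy => ?_⟩
      exact hcl _ ((Bl v).orderEmbOfCardLe_mem hv x) _ ((Bl v).orderEmbOfCardLe_mem hv y)
        fun he => hxy.ne (((Bl v).orderEmbOfCardLe hv).injective he)
    · right
      push Not at hcl
      obtain ⟨x, hx, y, hy, hxy, hR⟩ := hcl
      rw [hBlm] at hx hy
      have h3 : 3 ≤ ({v, x, y} : Finset (Fin T)).card := by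
        rw [Finset.card_eq_three.2 ⟨v, x, y, hx.1, hy.1, hxy, rfl⟩]
      obtain ⟨f, hf⟩ : ∃ f : Fin 3 ↪o Fin T,
        f = ({v, x, y} : Finset (Fin T)).orderEmbOfCardLe h3 := ⟨_, rfl⟩
      have hfm : ∀ i, f i = v ∨ f i = x ∨ f i = y := by
        intro i
        have h4 := ({v, x, y} : Finset (Fin T)).orderEmbOfCardLe_mem h3 i
        rw [← hf] at h4
        simpa using h4
      have key : ∀ p q : Fin T, (p = v ∨ p = x ∨ p = y) → (q = v ∨ q = x ∨ q = y) → p ≠ q →
          ¬ R.Adj p q := by
        intro p q hp hq hpq hadj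
        rcases hp with rfl | rfl | rfl <;> rcases hq with rfl | rfl | rfl
        · exact hpq rfl
        · exact hx.2 hadj
        · exact hy.2 hadj
        · exact hx.2 hadj.symm
        · exact hpq rfl
        · exact hR hadj
        · exact hy.2 hadj.symm
        · exact hR hadj.symm
        · exact hpq rfl
      refine ⟨f, f.strictMono, fun i j hij => ?_⟩
      have h5 : f i ≠ f j := fun he => hij.ne (f.injective he)
      rw [SimpleGraph.compl_adj]
      exact ⟨h5, key _ _ (hfm i) (hfm j) h5⟩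
  · left
    push Not at hdeg
    obtain ⟨D, hD, hch⟩ := h.cheap hm
    have ha := h.pos hm
    have hml := h.le
    have hN'pos : 0 < N' := by
      rw [hN']
      exact Nat.mul_pos (Nat.mul_pos (by positivity) ha) (lt_of_lt_of_le hm hml)
    have hL : 4 ^ r * l ≤ N' := by
      rw [hN']
      refine Nat.mul_le_mul_right l ?_
      calc 4 ^ r = 4 ^ r * 1 := by ring
        _ ≤ 16 ^ r * a := Nat.mul_le_mul (Nat.pow_le_pow_left (by norm_num) r) ha
    obtain ⟨B, hB⟩ : ∃ B : Finset (ℕ × ℕ), B = (Finset.range N' ×ˢ Finset.range N').filter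
      (fun z => ∃ (hx : z.1 < T) (hy : N' + z.2 < T), ¬ R.Adj ⟨z.1, hx⟩ ⟨N' + z.2, hy⟩) :=
        ⟨_, rfl⟩
    have hBc : B.card ≤ (2 * m - 1) * N' := by
      have h1 : ∀ z ∈ B, z.1 ∈ Finset.range N' := by
        intro z hz
        rw [hB, Finset.mem_filter, Finset.mem_product] at hz
        exact hz.1.1
      have h2 := Finset.card_le_mul_card_image_of_maps_to h1 (2 * m - 1) (by
        intro x hx
        rw [Finset.mem_range] at hx
        have hxT : x < T := by omega
        have h3 := hdeg ⟨x, hxT⟩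
        have h4 : (B.filter (fun z => z.1 = x)).card ≤ (Bl ⟨x, hxT⟩).card := by
          refine Finset.card_le_card_of_injOn
            (fun z => if hz : N' + z.2 < T then ⟨N' + z.2, hz⟩ else ⟨x, hxT⟩) ?_ ?_
          · intro z hz
            have hz1 := Finset.mem_filter.1 (Finset.mem_coe.1 hz)
            have hz2 := hz1.1
            rw [hB, Finset.mem_filter] at hz2
            obtain ⟨_, hx1, hy1, hadj⟩ := hz2
            have hz3 : z.1 = x := hz1.2
            rw [Finset.mem_coe, hBlm]
            simp only [dif_pos hy1]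
            subst hz3
            refine ⟨fun he => ?_, hadj⟩
            have := congrArg Fin.val he
            simp only at this
            omega
          · intro z hz w hw hzw
            have hz1 := Finset.mem_filter.1 (Finset.mem_coe.1 hz)
            have hw1 := Finset.mem_filter.1 (Finset.mem_coe.1 hw)
            have hz2 := hz1.1
            have hw2 := hw1.1
            rw [hB, Finset.mem_filter] at hz2 hw2
            obtain ⟨_, _, hy1, _⟩ := hz2
            obtain ⟨_, _, hy2, _⟩ := hw2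
            have hz3 : z.1 = x := hz1.2
            have hw3 : w.1 = x := hw1.2
            simp only [dif_pos hy1, dif_pos hy2, Fin.mk.injEq] at hzw
            ext
            · rw [hz3, hw3]
            · omega
        omega)
      rwa [Finset.card_range] at h2
    have hBD : B.card * D < N' * N' := by
      have h1 : (2 * m - 1) * D < N' := by
        have h2 : 4 * D * m ≤ N' := by
          rw [hN']
          exact Nat.mul_le_mul hD hml
        rcases Nat.eq_zero_or_pos D with h0 | h0
        · rw [h0, Nat.mul_zero]; exact hN'pos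
        · have h3 : (2 * m - 1) * D < 2 * m * D := Nat.mul_lt_mul_of_pos_right (by omega) h0
          nlinarith
      calc B.card * D ≤ ((2 * m - 1) * N') * D := Nat.mul_le_mul_right D hBc
        _ = ((2 * m - 1) * D) * N' := by ring
        _ < N' * N' := Nat.mul_lt_mul_of_pos_right h1 hN'pos
    obtain ⟨ρ, c, hρ, hc, hρN, hcN, hρc⟩ := hch N' hL B hBD
    have hred : ∀ i : Fin m, ∀ (h1 : ρ i < T) (h2 : N' + c (π i) < T),
        R.Adj ⟨ρ i, h1⟩ ⟨N' + c (π i), h2⟩ := by
      intro i h1 h2
      by_contra hcon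
      apply hρc i
      rw [hB, Finset.mem_filter, Finset.mem_product, Finset.mem_range, Finset.mem_range]
      exact ⟨⟨hρN i, hcN _⟩, h1, h2, hcon⟩
    have hb1 : ∀ (x : Fin (2 * m)) (hx : (x : ℕ) < m), ρ ⟨x, hx⟩ < T := by
      intro x hx
      have := hρN ⟨x, hx⟩
      omega
    have hb2 : ∀ (x : Fin (2 * m)), (x : ℕ) - m < m := by
      intro x
      have := x.2
      omega
    have hb3 : ∀ (x : Fin (2 * m)), N' + c ⟨(x : ℕ) - m, hb2 x⟩ < T := by
      intro x
      have := hcN ⟨(x : ℕ) - m, hb2 x⟩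
      omega
    obtain ⟨F, hF⟩ : ∃ F : Fin (2 * m) → Fin T, ∀ x, F x =
      if hx : (x : ℕ) < m then (⟨ρ ⟨x, hx⟩, hb1 x hx⟩ : Fin T)
      else (⟨N' + c ⟨(x : ℕ) - m, hb2 x⟩, hb3 x⟩ : Fin T) := ⟨_, fun x => rfl⟩
    have hF1 : ∀ (x : Fin (2 * m)) (i : Fin m), (x : ℕ) = i → (F x : ℕ) = ρ i := by
      intro x i hxi
      have h1 : (x : ℕ) < m := by rw [hxi]; exact i.2
      rw [hF]
      simp only [dif_pos h1]
      exact congrArg ρ (Fin.ext hxi)
    have hF2 : ∀ (x : Fin (2 * m)) (j : Fin m), (x : ℕ) = m + j → (F x : ℕ) = N' + c j := by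
      intro x j hxj
      have h1 : ¬ (x : ℕ) < m := by omega
      rw [hF]
      simp only [dif_neg h1]
      have h2 : (⟨(x : ℕ) - m, by have := x.2; omega⟩ : Fin m) = j := Fin.ext (by
        show (x : ℕ) - m = j
        omega)
      rw [h2]
    have hmono : StrictMono F := by
      intro x y hxy
      have hxy' : (x : ℕ) < y := hxy
      show (F x : ℕ) < F y
      by_cases hx : (x : ℕ) < m
      · rw [hF1 x ⟨x, hx⟩ rfl]
        by_cases hy : (y : ℕ) < m
        · rw [hF1 y ⟨y, hy⟩ rfl]
          exact hρ (show (⟨x, hx⟩ : Fin m) < ⟨y, hy⟩ from hxy')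
        · rw [hF2 y ⟨(y : ℕ) - m, by have := y.2; omega⟩ (by
            show (y : ℕ) = m + ((y : ℕ) - m)
            omega)]
          have := hρN ⟨x, hx⟩
          omega
      · rw [hF2 x ⟨(x : ℕ) - m, by have := x.2; omega⟩ (by
            show (x : ℕ) = m + ((x : ℕ) - m)
            omega), hF2 y ⟨(y : ℕ) - m, by have := y.2; omega⟩ (by
            show (y : ℕ) = m + ((y : ℕ) - m)
            omega)]
        have := hc (show (⟨(x : ℕ) - m, by have := x.2; omega⟩ : Fin m) <
          ⟨(y : ℕ) - m, by have := y.2; omega⟩ from (by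
            show (x : ℕ) - m < (y : ℕ) - m
            omega))
        omega
    have hadj : ∀ x y, M.Adj x y → (x : ℕ) < y → R.Adj (F x) (F y) := by
      intro x y hxy hlt
      obtain ⟨i, hi, hj⟩ := hM x y hxy hlt
      have h1 := hF1 x i hi
      have h2 := hF2 y (π i) hj
      have h3 : F x = ⟨ρ i, by rw [← h1]; exact (F x).2⟩ := Fin.ext h1
      have h4 : F y = ⟨N' + c (π i), by rw [← h2]; exact (F y).2⟩ := Fin.ext h2
      rw [h3, h4]
      exact hred i _ _
    refine ⟨F, hmono, fun x y hxy => ?_⟩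
    rcases lt_trichotomy (x : ℕ) y with hlt | heq | hgt
    · exact hadj x y hxy hlt
    · exact absurd (Fin.ext heq) hxy.ne
    · exact (hadj y x hxy.symm hgt).symm

theorem main {r a l m : ℕ} {π : Equiv.Perm (Fin m)} (h : Built r a l m π)
    (M : SimpleGraph (Fin (2 * m))) (hM : MatchingOf π M) :
    orderedRamsey M (⊤ : SimpleGraph (Fin 3)) ≤ 16 ^ r * a * (2 * l) := by
  refine Nat.sInf_le ?_
  rcases Nat.eq_zero_or_pos m with rfl | hm
  · intro R
    exact Or.inl ⟨fun x => absurd x.2 (by omega), fun x => absurd x.2 (by omega),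
      fun x => absurd x.2 (by omega)⟩
  · exact main_aux h hm M hM (16 ^ r * a * l) _ rfl (by ring)

end Pool.Agent.K1H89.OR
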